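import Mathlib

/-!
# A mass-symmetric 2-type torus lying fully in `S⁸`

We give an explicit doubly periodic immersion `X : ℝ² → 𝔼⁹` whose image lies fully in a
hypersphere `S⁸` (an even-dimensional sphere) and which is of 2-type and mass-symmetric in `S⁸`.

With `S = sin² u` and `D = √(15 - 8 S)` the immersion is, in `ℂ⁴ × ℝ = ℝ⁹`,

`X(u, v) = (2√2 sin u e^{iv}, D e^{4iv}, (2√2/7) D cos u e^{7iv}, 4 sin u cos u e^{2iv},
            (√5/7) (12 S - 5))`.

The induced metric is `120 (3 - 2S) (du²/D² + dv²)`, `|X|² = 20`, the first two complex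
coordinates are eigenfunctions of the Laplacian with eigenvalue `1/15`, and the remaining ones
are eigenfunctions with eigenvalue `1/5`.
-/

open scoped ContDiff

namespace Pool.Agent.Results.MP_1643f9_gt.EvenSphereTorus

/-- Euclidean space `𝔼^m`. -/
abbrev E (m : ℕ) := EuclideanSpace ℝ (Fin m)

/-- The surface `M = ℝ²`, with its global coordinates `(u, v)`. -/
abbrev Plane := ℝ × ℝ

/-- `∂f/∂u`: the Fréchet derivative of `f` applied to `(1, 0)`. -/
noncomputable def du {F : Type*} [NormedAddCommGroup F] [NormedSpace ℝ F]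
    (f : Plane → F) (p : Plane) : F := fderiv ℝ f p (1, 0)

/-- `∂f/∂v`: the Fréchet derivative of `f` applied to `(0, 1)`. -/
noncomputable def dv {F : Type*} [NormedAddCommGroup F] [NormedSpace ℝ F]
    (f : Plane → F) (p : Plane) : F := fderiv ℝ f p (0, 1)

/-- First fundamental form coefficient `⟨x_u, x_u⟩`. -/
noncomputable def gE {m : ℕ} (x : Plane → E m) (p : Plane) : ℝ := inner ℝ (du x p) (du x p)

/-- First fundamental form coefficient `⟨x_u, x_v⟩`. -/
noncomputable def gF {m : ℕ} (x : Plane → E m) (p : Plane) : ℝ := inner ℝ (du x p) (dv x p)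

/-- First fundamental form coefficient `⟨x_v, x_v⟩`. -/
noncomputable def gG {m : ℕ} (x : Plane → E m) (p : Plane) : ℝ := inner ℝ (dv x p) (dv x p)

/-- The area density `√(EG - F²)` of the induced metric. -/
noncomputable def area {m : ℕ} (x : Plane → E m) (p : Plane) : ℝ :=
  Real.sqrt (gE x p * gG x p - gF x p ^ 2)

/-- The Laplace-Beltrami operator `Δ = -div grad` of the metric induced by `x`, acting on
functions, given by Beltrami's classical coordinate formula. -/
noncomputable def lap {m : ℕ} (x : Plane → E m) (f : Plane → ℝ) (p : Plane) : ℝ :=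
  -(1 / area x p) *
    (du (fun q => (gG x q * du f q - gF x q * dv f q) / area x q) p
      + dv (fun q => (gE x q * dv f q - gF x q * du f q) / area x q) p)

/-- `x` is a smooth immersion. -/
def IsImmersion {m : ℕ} (x : Plane → E m) : Prop :=
  ContDiff ℝ ∞ x ∧ ∀ p, Function.Injective (fderiv ℝ x p)

/-- `y` is a smooth non-constant `𝔼^m`-valued map with `Δ y = l y`, `Δ` being the Laplacian of the
metric induced by `x`. -/
def IsEigenmap {m : ℕ} (x y : Plane → E m) (l : ℝ) : Prop :=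
  ContDiff ℝ ∞ y ∧ (¬ ∃ b, ∀ p, y p = b) ∧ ∀ p i, lap x (fun q => y q i) p = l * y p i

/-- `x` is of 2-type with constant term `c` in its spectral decomposition
`x = c + y₁ + y₂`, `Δ y₁ = l₁ y₁`, `Δ y₂ = l₂ y₂`, `l₁ ≠ l₂`, `y₁` and `y₂` non-constant. -/
def IsTwoType {m : ℕ} (x : Plane → E m) (c : E m) : Prop :=
  ∃ (y₁ y₂ : Plane → E m) (l₁ l₂ : ℝ), l₁ ≠ l₂ ∧ IsEigenmap x y₁ l₁ ∧ IsEigenmap x y₂ l₂ ∧
    ∀ p, x p = c + y₁ p + y₂ p

/-- The image of `x` lies in the hypersphere with centre `a` and radius `r > 0`, and in no affine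
hyperplane `{z | ⟨w, z⟩ = b}`, `w ≠ 0`. -/
def LiesFullyIn {m : ℕ} (x : Plane → E m) (a : E m) (r : ℝ) : Prop :=
  0 < r ∧ (∀ p, x p ∈ Metric.sphere a r) ∧
    ¬ ∃ (w : E m) (b : ℝ), w ≠ 0 ∧ ∀ p, inner ℝ w (x p) = b

/-! ### product functions -/

lemma hasFDerivAt_prod {a b : ℝ → ℝ} {a' b' : ℝ} {p : Plane}
    (ha : HasDerivAt a a' p.1) (hb : HasDerivAt b b' p.2) :
    HasFDerivAt (fun q : Plane => a q.1 * b q.2)
      (a p.1 • (b' • ContinuousLinearMap.snd ℝ ℝ ℝ) + b p.2 • (a' • ContinuousLinearMap.fst ℝ ℝ ℝ)) p := by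
  have h1 : HasFDerivAt (fun q : Plane => a q.1) (a' • ContinuousLinearMap.fst ℝ ℝ ℝ) p :=
    ha.comp_hasFDerivAt p hasFDerivAt_fst
  have h2 : HasFDerivAt (fun q : Plane => b q.2) (b' • ContinuousLinearMap.snd ℝ ℝ ℝ) p :=
    hb.comp_hasFDerivAt p hasFDerivAt_snd
  exact h1.mul h2

lemma du_prod {a b : ℝ → ℝ} {a' b' : ℝ} {p : Plane}
    (ha : HasDerivAt a a' p.1) (hb : HasDerivAt b b' p.2) :
    du (fun q : Plane => a q.1 * b q.2) p = a' * b p.2 := by
  unfold du
  rw [(hasFDerivAt_prod ha hb).fderiv]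
  simp [mul_comm]

lemma dv_prod {a b : ℝ → ℝ} {a' b' : ℝ} {p : Plane}
    (ha : HasDerivAt a a' p.1) (hb : HasDerivAt b b' p.2) :
    dv (fun q : Plane => a q.1 * b q.2) p = a p.1 * b' := by
  unfold dv
  rw [(hasFDerivAt_prod ha hb).fderiv]
  simp

lemma du_apply {m : ℕ} {x : Plane → E m} {p : Plane} (hx : DifferentiableAt ℝ x p) (i : Fin m) :
    du x p i = du (fun q => x q i) p := by
  unfold du
  have h : HasFDerivAt (fun q => x q i)
      ((EuclideanSpace.proj i : E m →L[ℝ] ℝ).comp (fderiv ℝ x p)) p :=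
    (EuclideanSpace.proj i : E m →L[ℝ] ℝ).hasFDerivAt.comp p hx.hasFDerivAt
  rw [h.fderiv]
  simp

lemma dv_apply {m : ℕ} {x : Plane → E m} {p : Plane} (hx : DifferentiableAt ℝ x p) (i : Fin m) :
    dv x p i = dv (fun q => x q i) p := by
  unfold dv
  have h : HasFDerivAt (fun q => x q i)
      ((EuclideanSpace.proj i : E m →L[ℝ] ℝ).comp (fderiv ℝ x p)) p :=
    (EuclideanSpace.proj i : E m →L[ℝ] ℝ).hasFDerivAt.comp p hx.hasFDerivAt
  rw [h.fderiv]
  simp

/-! ### the example -/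

noncomputable def D (s : ℝ) : ℝ := Real.sqrt (15 - 8 * Real.sin s ^ 2)

lemma rad_pos (s : ℝ) : 0 < 15 - 8 * Real.sin s ^ 2 := by
  have := Real.sin_sq_le_one s
  linarith

lemma D_pos (s : ℝ) : 0 < D s := Real.sqrt_pos.2 (rad_pos s)

lemma D_sq (s : ℝ) : D s ^ 2 = 15 - 8 * Real.sin s ^ 2 := Real.sq_sqrt (rad_pos s).le

lemma hasDerivAt_D (s : ℝ) : HasDerivAt D (-8 * Real.sin s * Real.cos s / D s) s := by
  have h : HasDerivAt (fun s => 15 - 8 * Real.sin s ^ 2) (-(8 * (2 * Real.sin s * Real.cos s))) s := by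
    have h1 : HasDerivAt (fun s => Real.sin s ^ 2) (2 * Real.sin s * Real.cos s) s :=
      ((Real.hasDerivAt_sin s).fun_pow 2).congr_deriv (by simp)
    exact ((h1.const_mul 8).const_sub 15).congr_deriv (by ring)
  have h2 := h.sqrt (rad_pos s).ne'
  unfold D
  refine h2.congr_deriv ?_
  have : Real.sqrt (15 - 8 * Real.sin s ^ 2) ≠ 0 := (D_pos s).ne'
  field_simp

/-- radial factors -/
noncomputable def A (s : ℝ) : Fin 9 → ℝ :=
  ![2 * √2 * Real.sin s, 2 * √2 * Real.sin s, D s, D s,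
    2 * √2 / 7 * (D s * Real.cos s), 2 * √2 / 7 * (D s * Real.cos s),
    4 * (Real.sin s * Real.cos s), 4 * (Real.sin s * Real.cos s),
    √5 / 7 * (12 * Real.sin s ^ 2 - 5)]

noncomputable def A' (s : ℝ) : Fin 9 → ℝ :=
  ![2 * √2 * Real.cos s, 2 * √2 * Real.cos s, -8 * Real.sin s * Real.cos s / D s,
    -8 * Real.sin s * Real.cos s / D s,
    2 * √2 / 7 * (Real.sin s * (16 * Real.sin s ^ 2 - 23) / D s),
    2 * √2 / 7 * (Real.sin s * (16 * Real.sin s ^ 2 - 23) / D s),
    4 * (1 - 2 * Real.sin s ^ 2), 4 * (1 - 2 * Real.sin s ^ 2),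
    √5 / 7 * (24 * Real.sin s * Real.cos s)]

noncomputable def B (t : ℝ) : Fin 9 → ℝ :=
  ![Real.cos t, Real.sin t, Real.cos (4 * t), Real.sin (4 * t), Real.cos (7 * t), Real.sin (7 * t),
    Real.cos (2 * t), Real.sin (2 * t), 1]

noncomputable def B' (t : ℝ) : Fin 9 → ℝ :=
  ![-Real.sin t, Real.cos t, -(4 * Real.sin (4 * t)), 4 * Real.cos (4 * t),
    -(7 * Real.sin (7 * t)), 7 * Real.cos (7 * t),
    -(2 * Real.sin (2 * t)), 2 * Real.cos (2 * t), 0]

noncomputable def K : Fin 9 → ℝ := ![1, 1, 4, 4, 7, 7, 2, 2, 0]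

noncomputable def X (p : Plane) : E 9 := WithLp.toLp 2 (fun i => A p.1 i * B p.2 i)

lemma hasDerivAt_A (s : ℝ) (i : Fin 9) : HasDerivAt (fun s => A s i) (A' s i) s := by
  have hs := Real.hasDerivAt_sin s
  have hc := Real.hasDerivAt_cos s
  have hD := hasDerivAt_D s
  have hsq : HasDerivAt (fun s => Real.sin s ^ 2) (2 * Real.sin s * Real.cos s) s :=
    ((Real.hasDerivAt_sin s).fun_pow 2).congr_deriv (by simp)
  have hD0 := (D_pos s).ne'
  have hDs := D_sq s
  have hcs := Real.sin_sq_add_cos_sq s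
  have h4 : HasDerivAt (fun s => 2 * √2 / 7 * (D s * Real.cos s))
      (2 * √2 / 7 * (Real.sin s * (16 * Real.sin s ^ 2 - 23) / D s)) s := by
    refine ((hD.fun_mul hc).const_mul (2 * √2 / 7)).congr_deriv ?_
    congr 1
    field_simp
    rw [hDs]
    have : Real.cos s ^ 2 = 1 - Real.sin s ^ 2 := by linarith
    rw [this]
    ring
  have h6 : HasDerivAt (fun s => 4 * (Real.sin s * Real.cos s)) (4 * (1 - 2 * Real.sin s ^ 2)) s := by
    refine ((hs.fun_mul hc).const_mul 4).congr_deriv ?_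
    have : Real.cos s ^ 2 = 1 - Real.sin s ^ 2 := by linarith
    linear_combination 4 * this
  have h8 : HasDerivAt (fun s => √5 / 7 * (12 * Real.sin s ^ 2 - 5))
      (√5 / 7 * (24 * Real.sin s * Real.cos s)) s := by
    refine (((hsq.const_mul 12).sub_const 5).const_mul (√5 / 7)).congr_deriv ?_
    ring
  fin_cases i
  · exact hs.const_mul _
  · exact hs.const_mul _
  · exact hD
  · exact hD
  · exact h4
  · exact h4
  · exact h6
  · exact h6
  · exact h8

lemma hasDerivAt_cos_mul (k t : ℝ) :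
    HasDerivAt (fun t => Real.cos (k * t)) (-(k * Real.sin (k * t))) t :=
  (((hasDerivAt_id t).const_mul k).cos).congr_deriv (by simp; ring)

lemma hasDerivAt_sin_mul (k t : ℝ) :
    HasDerivAt (fun t => Real.sin (k * t)) (k * Real.cos (k * t)) t :=
  (((hasDerivAt_id t).const_mul k).sin).congr_deriv (by simp; ring)

lemma hasDerivAt_B (t : ℝ) (i : Fin 9) : HasDerivAt (fun t => B t i) (B' t i) t := by
  fin_cases i
  · exact Real.hasDerivAt_cos t
  · exact Real.hasDerivAt_sin t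
  · exact hasDerivAt_cos_mul 4 t
  · exact hasDerivAt_sin_mul 4 t
  · exact hasDerivAt_cos_mul 7 t
  · exact hasDerivAt_sin_mul 7 t
  · exact hasDerivAt_cos_mul 2 t
  · exact hasDerivAt_sin_mul 2 t
  · exact hasDerivAt_const t 1

lemma hasDerivAt_B' (t : ℝ) (i : Fin 9) : HasDerivAt (fun t => B' t i) (-(K i) ^ 2 * B t i) t := by
  fin_cases i
  · exact (Real.hasDerivAt_sin t).fun_neg.congr_deriv (by simp [K, B])
  · exact (Real.hasDerivAt_cos t).congr_deriv (by simp [K, B])
  · exact ((hasDerivAt_sin_mul 4 t).const_mul 4).fun_neg.congr_deriv (by simp [K, B]; ring)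
  · exact ((hasDerivAt_cos_mul 4 t).const_mul 4).congr_deriv (by simp [K, B]; ring)
  · exact ((hasDerivAt_sin_mul 7 t).const_mul 7).fun_neg.congr_deriv (by simp [K, B]; ring)
  · exact ((hasDerivAt_cos_mul 7 t).const_mul 7).congr_deriv (by simp [K, B]; ring)
  · exact ((hasDerivAt_sin_mul 2 t).const_mul 2).fun_neg.congr_deriv (by simp [K, B]; ring)
  · exact ((hasDerivAt_cos_mul 2 t).const_mul 2).congr_deriv (by simp [K, B]; ring)
  · exact (hasDerivAt_const t (0 : ℝ)).congr_deriv (by simp [K, B])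


lemma X_apply (p : Plane) (i : Fin 9) : X p i = A p.1 i * B p.2 i := rfl

lemma contDiff_D : ContDiff ℝ ∞ D := by
  unfold D
  exact (by fun_prop : ContDiff ℝ ∞ (fun s => 15 - 8 * Real.sin s ^ 2)).sqrt (fun s => (rad_pos s).ne')

lemma contDiff_A (i : Fin 9) : ContDiff ℝ ∞ (fun s => A s i) := by
  have hD := contDiff_D
  fin_cases i <;> simp only [A] <;> dsimp <;> fun_prop

lemma contDiff_B (i : Fin 9) : ContDiff ℝ ∞ (fun s => B s i) := by
  fin_cases i <;> simp only [B] <;> dsimp <;> fun_prop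

lemma contDiff_AB (i : Fin 9) : ContDiff ℝ ∞ (fun p : Plane => A p.1 i * B p.2 i) :=
  ((contDiff_A i).comp contDiff_fst).mul ((contDiff_B i).comp contDiff_snd)

lemma contDiff_X : ContDiff ℝ ∞ X := contDiff_euclidean.2 fun i => contDiff_AB i

lemma differentiable_X : Differentiable ℝ X := contDiff_X.differentiable (by simp)

lemma du_X (p : Plane) (i : Fin 9) : du X p i = A' p.1 i * B p.2 i := by
  rw [du_apply (differentiable_X p)]
  exact du_prod (hasDerivAt_A p.1 i) (hasDerivAt_B p.2 i)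

lemma dv_X (p : Plane) (i : Fin 9) : dv X p i = A p.1 i * B' p.2 i := by
  rw [dv_apply (differentiable_X p)]
  exact dv_prod (hasDerivAt_A p.1 i) (hasDerivAt_B p.2 i)

/-- the conformal-type weight -/
noncomputable def W (s : ℝ) : ℝ := 120 * (3 - 2 * Real.sin s ^ 2)

lemma W_pos (s : ℝ) : 0 < W s := by
  have := Real.sin_sq_le_one s
  unfold W
  linarith


lemma inner_eq_sum (a b : E 9) : inner ℝ a b = ∑ i, a i * b i := by
  rw [PiLp.inner_apply]
  exact Finset.sum_congr rfl fun i _ => by simp [mul_comm]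

lemma gG_X (p : Plane) : gG X p = W p.1 := by
  have hD := D_sq p.1
  have hcs : Real.cos p.1 ^ 2 = 1 - Real.sin p.1 ^ 2 := Real.cos_sq' p.1
  have h1 := Real.sin_sq_add_cos_sq p.2
  have h4 := Real.sin_sq_add_cos_sq (4 * p.2)
  have h7 := Real.sin_sq_add_cos_sq (7 * p.2)
  have h2 := Real.sin_sq_add_cos_sq (2 * p.2)
  have hq : (√2 : ℝ) ^ 2 = 2 := Real.sq_sqrt (by norm_num)
  simp only [gG, inner_eq_sum, dv_X, Fin.sum_univ_succ, Fin.sum_univ_zero]
  simp only [A, B', W, Matrix.cons_val, Fin.succ_zero_eq_one, Fin.isValue, Matrix.cons_val_zero,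
    Matrix.cons_val_succ]
  generalize Real.sin p.1 = s at *
  generalize Real.cos p.1 = c at *
  generalize D p.1 = d at *
  generalize (√2 : ℝ) = r at *
  linear_combination 4*r^2*s^2*h1 + 16*d^2*h4 + 4*r^2*d^2*c^2*h7+64*s^2*c^2*h2
    + (4*s^2+4*d^2*c^2)*hq + (8*d^2+64*s^2)*hcs + (24-8*s^2)*hD

lemma gF_X (p : Plane) : gF X p = 0 := by
  simp only [gF, inner_eq_sum, dv_X, du_X, Fin.sum_univ_succ, Fin.sum_univ_zero]
  simp only [A, B', A', B, Matrix.cons_val, Fin.succ_zero_eq_one, Fin.isValue,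
    Matrix.cons_val_zero, Matrix.cons_val_succ]
  ring

lemma gE_X (p : Plane) : gE X p = W p.1 * (D p.1)⁻¹ ^ 2 := by
  have hD := D_sq p.1
  have hi : (D p.1)⁻¹ ^ 2 * D p.1 ^ 2 = 1 := by
    rw [← mul_pow, inv_mul_cancel₀ (D_pos p.1).ne', one_pow]
  have hcs : Real.cos p.1 ^ 2 = 1 - Real.sin p.1 ^ 2 := Real.cos_sq' p.1
  have h1 := Real.sin_sq_add_cos_sq p.2
  have h4 := Real.sin_sq_add_cos_sq (4 * p.2)
  have h7 := Real.sin_sq_add_cos_sq (7 * p.2)
  have h2 := Real.sin_sq_add_cos_sq (2 * p.2)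
  have hq : (√2 : ℝ) ^ 2 = 2 := Real.sq_sqrt (by norm_num)
  have h5 : (√5 : ℝ) ^ 2 = 5 := Real.sq_sqrt (by norm_num)
  simp only [gE, inner_eq_sum, du_X, Fin.sum_univ_succ, Fin.sum_univ_zero]
  simp only [A', B, W, Matrix.cons_val, Fin.succ_zero_eq_one, Fin.isValue,
    Matrix.cons_val_zero, Matrix.cons_val_succ, div_eq_mul_inv]
  generalize Real.sin p.1 = s at *
  generalize Real.cos p.1 = c at *
  generalize (D p.1)⁻¹ = i at *
  generalize D p.1 = d at *
  generalize (√2 : ℝ) = r at *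
  generalize (√5 : ℝ) = q at *
  linear_combination 4*r^2*c^2*h1 + 64*s^2*c^2*i^2*h4 + (4*r^2/49)*s^2*(16*s^2-23)^2*i^2*h7
    + 16*(1-2*s^2)^2*h2 + (576/49)*s^2*c^2*h5
    + (4*c^2+(4/49)*s^2*(16*s^2-23)^2*i^2)*hq
    + (8+64*s^2*i^2+(2880/49)*s^2)*hcs
    - (8*(1-s^2)+16*(1-2*s^2)^2+(2880/49)*s^2*(1-s^2))*hi
    + i^2*(8*(1-s^2)+16*(1-2*s^2)^2+(2880/49)*s^2*(1-s^2))*hD

lemma area_X (p : Plane) : area X p = W p.1 * (D p.1)⁻¹ := by
  have hW := W_pos p.1
  have hD := D_pos p.1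
  unfold area
  rw [gE_X, gG_X, gF_X]
  have : W p.1 * (D p.1)⁻¹ ^ 2 * W p.1 - 0 ^ 2 = (W p.1 * (D p.1)⁻¹) ^ 2 := by ring
  rw [this, Real.sqrt_sq (by positivity)]

lemma lap_prod {a a' c b b' b'' : ℝ → ℝ} (ha : ∀ s, HasDerivAt a (a' s) s)
    (hc : ∀ s, HasDerivAt (fun s => D s * a' s) (c s) s)
    (hb : ∀ t, HasDerivAt b (b' t) t) (hb' : ∀ t, HasDerivAt b' (b'' t) t) (p : Plane) :
    lap X (fun q => a q.1 * b q.2) p
      = -(D p.1 * (W p.1)⁻¹) * (c p.1 * b p.2 + (D p.1)⁻¹ * a p.1 * b'' p.2) := by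
  have hu : (fun q => (gG X q * du (fun q => a q.1 * b q.2) q
      - gF X q * dv (fun q => a q.1 * b q.2) q) / area X q) =
      fun q : Plane => (D q.1 * a' q.1) * b q.2 := by
    funext q
    have hW := (W_pos q.1).ne'
    have hD := (D_pos q.1).ne'
    rw [du_prod (ha q.1) (hb q.2), gG_X, gF_X, area_X]
    field_simp
    ring
  have hv : (fun q => (gE X q * dv (fun q => a q.1 * b q.2) q
      - gF X q * du (fun q => a q.1 * b q.2) q) / area X q) =
      fun q : Plane => ((D q.1)⁻¹ * a q.1) * b' q.2 := by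
    funext q
    have hW := (W_pos q.1).ne'
    have hD := (D_pos q.1).ne'
    rw [dv_prod (ha q.1) (hb q.2), gE_X, gF_X, area_X]
    field_simp
    ring
  unfold lap
  have hinv : HasDerivAt (fun s => (D s)⁻¹ * a s)
      (-(-8 * Real.sin p.1 * Real.cos p.1 / D p.1) / D p.1 ^ 2 * a p.1 + (D p.1)⁻¹ * a' p.1) p.1 :=
    ((hasDerivAt_D p.1).fun_inv (D_pos p.1).ne').fun_mul (ha p.1)
  rw [hu, hv, du_prod (a := fun s => D s * a' s) (hc p.1) (hb p.2),
    dv_prod (a := fun s => (D s)⁻¹ * a s) hinv (hb' p.2), area_X]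
  have hW := (W_pos p.1).ne'
  have hD := (D_pos p.1).ne'
  field_simp


/-- eigenvalue attached to each coordinate -/
noncomputable def Lam : Fin 9 → ℝ := ![1/15, 1/15, 1/15, 1/15, 1/5, 1/5, 1/5, 1/5, 1/5]

lemma hasDerivAt_DA' (s : ℝ) (i : Fin 9) :
    HasDerivAt (fun s => D s * A' s i) ((K i ^ 2 - Lam i * W s) * A s i / D s) s := by
  have hs := Real.hasDerivAt_sin s
  have hc := Real.hasDerivAt_cos s
  have hD := hasDerivAt_D s
  have hsq : HasDerivAt (fun s => Real.sin s ^ 2) (2 * Real.sin s * Real.cos s) s :=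
    ((Real.hasDerivAt_sin s).fun_pow 2).congr_deriv (by simp)
  have hD0 := (D_pos s).ne'
  have hDs := D_sq s
  have hcs : Real.cos s ^ 2 = 1 - Real.sin s ^ 2 := Real.cos_sq' s
  have h0 : HasDerivAt (fun s => D s * (2 * √2 * Real.cos s))
      (((1:ℝ) ^ 2 - 1/15 * W s) * (2 * √2 * Real.sin s) / D s) s := by
    refine (hD.fun_mul (hc.const_mul (2 * √2))).congr_deriv ?_
    unfold W
    field_simp
    rw [hDs, hcs]
    ring
  have h2 : HasDerivAt (fun s => D s * (-8 * Real.sin s * Real.cos s / D s))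
      (((4:ℝ) ^ 2 - 1/15 * W s) * (D s) / D s) s := by
    have he : (fun s => D s * (-8 * Real.sin s * Real.cos s / D s)) =
        fun s => -8 * (Real.sin s * Real.cos s) := by
      funext t
      have := (D_pos t).ne'
      field_simp
    rw [he]
    refine ((hs.fun_mul hc).const_mul (-8)).congr_deriv ?_
    unfold W
    field_simp
    rw [hcs]
    ring
  have h4 : HasDerivAt (fun s => D s * (2 * √2 / 7 * (Real.sin s * (16 * Real.sin s ^ 2 - 23) / D s)))
      (((7:ℝ) ^ 2 - 1/5 * W s) * (2 * √2 / 7 * (D s * Real.cos s)) / D s) s := by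
    have he : (fun s => D s * (2 * √2 / 7 * (Real.sin s * (16 * Real.sin s ^ 2 - 23) / D s))) =
        fun s => 2 * √2 / 7 * (Real.sin s * (16 * Real.sin s ^ 2 - 23)) := by
      funext t
      have := (D_pos t).ne'
      field_simp
    rw [he]
    refine ((hs.fun_mul ((hsq.const_mul 16).sub_const 23)).const_mul (2 * √2 / 7)).congr_deriv ?_
    unfold W
    field_simp
    ring
  have h6 : HasDerivAt (fun s => D s * (4 * (1 - 2 * Real.sin s ^ 2)))
      (((2:ℝ) ^ 2 - 1/5 * W s) * (4 * (Real.sin s * Real.cos s)) / D s) s := by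
    refine (hD.fun_mul (((hsq.const_mul 2).const_sub 1).const_mul 4)).congr_deriv ?_
    unfold W
    field_simp
    rw [hDs]
    ring
  have h8 : HasDerivAt (fun s => D s * (√5 / 7 * (24 * Real.sin s * Real.cos s)))
      (((0:ℝ) ^ 2 - 1/5 * W s) * (√5 / 7 * (12 * Real.sin s ^ 2 - 5)) / D s) s := by
    refine (hD.fun_mul (((hs.const_mul 24).fun_mul hc).const_mul (√5 / 7))).congr_deriv ?_
    unfold W
    field_simp
    rw [hDs, hcs]
    ring
  fin_cases i
  · exact h0
  · exact h0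
  · exact h2
  · exact h2
  · exact h4
  · exact h4
  · exact h6
  · exact h6
  · exact h8

lemma lap_coord (p : Plane) (i : Fin 9) :
    lap X (fun q => A q.1 i * B q.2 i) p = Lam i * (A p.1 i * B p.2 i) := by
  rw [lap_prod (a := fun s => A s i) (a' := fun s => A' s i) (b := fun t => B t i)
    (fun s => hasDerivAt_A s i) (fun s => hasDerivAt_DA' s i) (fun t => hasDerivAt_B t i)
    (fun t => hasDerivAt_B' t i)]
  have hW := (W_pos p.1).ne'
  have hD := (D_pos p.1).ne'
  field_simp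
  ring

lemma lap_zero (p : Plane) : lap X (fun _ => (0 : ℝ)) p = 0 := by
  simp [lap, du, dv]

/-- first spectral component -/
noncomputable def Y₁ (p : Plane) : E 9 :=
  WithLp.toLp 2 (fun i => if i.val < 4 then A p.1 i * B p.2 i else 0)

/-- second spectral component -/
noncomputable def Y₂ (p : Plane) : E 9 :=
  WithLp.toLp 2 (fun i => if i.val < 4 then 0 else A p.1 i * B p.2 i)

lemma Y₁_eigen : IsEigenmap X Y₁ (1/15) := by
  refine ⟨contDiff_euclidean.2 fun i => ?_, ?_, ?_⟩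
  · by_cases h : i.val < 4
    · simpa only [Y₁, h, if_true] using contDiff_AB i
    · simpa only [Y₁, h, if_false] using (contDiff_const : ContDiff ℝ ∞ fun _ : Plane => (0:ℝ))
  · rintro ⟨b, hb⟩
    have h1 := congrArg (fun v : E 9 => v 2) (hb (0, 0))
    have h2 := congrArg (fun v : E 9 => v 2) (hb (0, Real.pi / 4))
    have h3 : Real.cos (4 * (Real.pi / 4)) = -1 := by
      rw [show 4 * (Real.pi / 4) = Real.pi by ring, Real.cos_pi]
    simp [Y₁, A, B, h3] at h1 h2
    have := D_pos 0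
    linarith
  · intro p i
    by_cases h : i.val < 4
    · have hl : Lam i = 1/15 := by
        revert h; fin_cases i <;> simp [Lam]
      simp only [Y₁, h, if_true]
      rw [lap_coord, hl]
    · simp only [Y₁, h, if_false]
      rw [lap_zero]; ring

lemma Y₂_eigen : IsEigenmap X Y₂ (1/5) := by
  refine ⟨contDiff_euclidean.2 fun i => ?_, ?_, ?_⟩
  · by_cases h : i.val < 4
    · simpa only [Y₂, h, if_true] using (contDiff_const : ContDiff ℝ ∞ fun _ : Plane => (0:ℝ))
    · simpa only [Y₂, h, if_false] using contDiff_AB i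
  · rintro ⟨b, hb⟩
    have h1 := congrArg (fun v : E 9 => v 8) (hb (0, 0))
    have h2 := congrArg (fun v : E 9 => v 8) (hb (Real.pi / 2, 0))
    simp [Y₂, A, B] at h1 h2
    have h5 : 0 < √(5:ℝ) := by positivity
    have := h1.trans h2.symm
    field_simp at this
    linarith
  · intro p i
    by_cases h : i.val < 4
    · simp only [Y₂, h, if_true]
      rw [lap_zero]; ring
    · have hl : Lam i = 1/5 := by
        revert h; fin_cases i <;> simp [Lam]
      simp only [Y₂, h, if_false]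
      rw [lap_coord, hl]

lemma norm_X (p : Plane) : ‖X p‖ ^ 2 = 20 := by
  have hD := D_sq p.1
  have hcs : Real.cos p.1 ^ 2 = 1 - Real.sin p.1 ^ 2 := Real.cos_sq' p.1
  have h1 := Real.sin_sq_add_cos_sq p.2
  have h4 := Real.sin_sq_add_cos_sq (4 * p.2)
  have h7 := Real.sin_sq_add_cos_sq (7 * p.2)
  have h2 := Real.sin_sq_add_cos_sq (2 * p.2)
  have hq : (√2 : ℝ) ^ 2 = 2 := Real.sq_sqrt (by norm_num)
  have h5 : (√5 : ℝ) ^ 2 = 5 := Real.sq_sqrt (by norm_num)
  rw [← real_inner_self_eq_norm_sq]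
  simp only [inner_eq_sum, X_apply, Fin.sum_univ_succ, Fin.sum_univ_zero]
  simp only [A, B, Matrix.cons_val, Fin.succ_zero_eq_one, Fin.isValue,
    Matrix.cons_val_zero, Matrix.cons_val_succ]
  generalize Real.sin p.1 = s at *
  generalize Real.cos p.1 = c at *
  generalize D p.1 = d at *
  generalize (√2 : ℝ) = r at *
  generalize (√5 : ℝ) = q at *
  linear_combination 4*r^2*s^2*h1 + d^2*h4 + (4*r^2/49)*d^2*c^2*h7 + 16*s^2*c^2*h2
    + (1/49)*(12*s^2-5)^2*h5 + (4*s^2+(4/49)*d^2*c^2)*hq + ((8/49)*d^2+16*s^2)*hcs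
    + (1+(8/49)*(1-s^2))*hD


lemma mem_sphere_X (p : Plane) : X p ∈ Metric.sphere (0 : E 9) (√20) := by
  rw [mem_sphere_zero_iff_norm, ← norm_X p, Real.sqrt_sq (norm_nonneg _)]

lemma D_zero : D 0 = √15 := by simp [D]

lemma full_X : ¬ ∃ (w : E 9) (b : ℝ), w ≠ 0 ∧ ∀ p, inner ℝ w (X p) = b := by
  rintro ⟨w, b, hw, h⟩
  apply hw
  have hr : (√2 : ℝ) ≠ 0 := by positivity
  have h15 : (√15 : ℝ) ≠ 0 := by positivity
  have h5 : (√5 : ℝ) ≠ 0 := by positivity
  have H : ∀ s t : ℝ, ∑ i, w i * (A s i * B t i) = b := fun s t => by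
    rw [← h (s, t), inner_eq_sum]; rfl
  simp only [Fin.sum_univ_succ, Fin.sum_univ_zero] at H
  simp only [A, B, Matrix.cons_val, Fin.succ_zero_eq_one, Fin.isValue,
    Matrix.cons_val_zero, Matrix.cons_val_succ] at H
  have s2 : Real.sin (Real.pi / 2) = 1 := Real.sin_pi_div_two
  have c2 : Real.cos (Real.pi / 2) = 0 := Real.cos_pi_div_two
  have c4 : Real.cos (Real.pi / 4) = √2 / 2 := Real.cos_pi_div_four
  have s4 : Real.sin (Real.pi / 4) = √2 / 2 := Real.sin_pi_div_four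
  have H1 : ∀ s t : ℝ, w 0 * (2 * √2 * Real.sin s * Real.cos t) +
      (w 1 * (2 * √2 * Real.sin s * Real.sin t) +
      (w 2 * (D s * Real.cos (4 * t)) +
      (w 3 * (D s * Real.sin (4 * t)) +
      (w 4 * (2 * √2 / 7 * (D s * Real.cos s) * Real.cos (7 * t)) +
      (w 5 * (2 * √2 / 7 * (D s * Real.cos s) * Real.sin (7 * t)) +
      (w 6 * (4 * (Real.sin s * Real.cos s) * Real.cos (2 * t)) +
      (w 7 * (4 * (Real.sin s * Real.cos s) * Real.sin (2 * t)) +
      (w 8 * (√5 / 7 * (12 * Real.sin s ^ 2 - 5) * 1) + 0)))))))) = b := fun s t => H s t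
  clear H
  have Dneg : ∀ s, D (-s) = D s := fun s => by simp [D]
  have Dpi : D Real.pi = D 0 := by simp [D]
  have D0 : D 0 ≠ 0 := (D_pos 0).ne'
  have s7 : Real.sin (7 * (Real.pi / 2)) = -1 := by
    rw [show 7 * (Real.pi / 2) = (Real.pi + Real.pi / 2) + 2 * Real.pi by ring,
      Real.sin_add_two_pi, Real.sin_add, s2, c2, Real.sin_pi, Real.cos_pi]; ring
  have c7 : Real.cos (7 * (Real.pi / 2)) = 0 := by
    rw [show 7 * (Real.pi / 2) = (Real.pi + Real.pi / 2) + 2 * Real.pi by ring,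
      Real.cos_add_two_pi, Real.cos_add, s2, c2, Real.sin_pi, Real.cos_pi]; ring
  -- sine components
  have w0 : w 0 = 0 := by
    have a1 := H1 (Real.pi / 2) 0
    have a2 := H1 (-(Real.pi / 2)) 0
    rw [Real.sin_neg, Real.cos_neg, Dneg] at a2
    simp only [s2, c2, mul_zero, Real.cos_zero, Real.sin_zero] at a1 a2
    have : w 0 * √2 = 0 := by linarith
    exact (mul_eq_zero.1 this).resolve_right hr
  have w1 : w 1 = 0 := by
    have a1 := H1 (Real.pi / 2) (Real.pi / 2)
    have a2 := H1 (-(Real.pi / 2)) (Real.pi / 2)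
    rw [Real.sin_neg, Real.cos_neg, Dneg] at a2
    simp only [s2, c2, mul_zero] at a1 a2
    have : w 1 * √2 = 0 := by linarith
    exact (mul_eq_zero.1 this).resolve_right hr
  have w4 : w 4 = 0 := by
    have a1 := H1 0 0
    have a2 := H1 Real.pi 0
    rw [Real.sin_pi, Real.cos_pi, Dpi] at a2
    simp only [mul_zero, Real.cos_zero, Real.sin_zero, zero_mul, mul_one] at a1 a2
    have : w 4 * (√2 * D 0) = 0 := by linarith
    exact (mul_eq_zero.1 this).resolve_right (mul_ne_zero hr D0)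
  have w5 : w 5 = 0 := by
    have a1 := H1 0 (Real.pi / 2)
    have a2 := H1 Real.pi (Real.pi / 2)
    rw [Real.sin_pi, Real.cos_pi, Dpi] at a2
    simp only [s7, c7, mul_zero, Real.cos_zero, Real.sin_zero, zero_mul, mul_one] at a1 a2
    have : w 5 * (√2 * D 0) = 0 := by linarith
    exact (mul_eq_zero.1 this).resolve_right (mul_ne_zero hr D0)
  have w6 : w 6 = 0 := by
    have a1 := H1 (Real.pi / 4) 0
    have a2 := H1 (-(Real.pi / 4)) 0
    rw [Real.sin_neg, Real.cos_neg, Dneg] at a2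
    simp only [s4, c4, w0, mul_zero, Real.cos_zero, Real.sin_zero] at a1 a2
    have : w 6 * (√2 * √2) = 0 := by linarith
    exact (mul_eq_zero.1 this).resolve_right (mul_ne_zero hr hr)
  have w7 : w 7 = 0 := by
    have a1 := H1 (Real.pi / 4) (Real.pi / 4)
    have a2 := H1 (-(Real.pi / 4)) (Real.pi / 4)
    rw [Real.sin_neg, Real.cos_neg, Dneg] at a2
    have e1 : 2 * (Real.pi / 4) = Real.pi / 2 := by ring
    simp only [w0, w1, w6, zero_mul, e1, s2, c2] at a1 a2
    rw [s4, c4] at a1 a2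
    have : w 7 * (√2 * √2) = 0 := by linarith
    exact (mul_eq_zero.1 this).resolve_right (mul_ne_zero hr hr)
  have e4 : 4 * (Real.pi / 4) = Real.pi := by ring
  have e8 : 4 * (Real.pi / 8) = Real.pi / 2 := by ring
  have e8' : 4 * (-(Real.pi / 8)) = -(Real.pi / 2) := by ring
  have w2 : w 2 = 0 := by
    have a1 := H1 0 0
    have a2 := H1 0 (Real.pi / 4)
    simp only [w4, w5, zero_mul, e4, Real.cos_pi, Real.sin_pi, mul_zero, Real.cos_zero,
      Real.sin_zero] at a1 a2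
    have : w 2 * D 0 = 0 := by linarith
    exact (mul_eq_zero.1 this).resolve_right D0
  have w3 : w 3 = 0 := by
    have a1 := H1 0 (Real.pi / 8)
    have a2 := H1 0 (-(Real.pi / 8))
    simp only [w4, w5, w2, zero_mul, e8, e8', Real.sin_neg, s2, mul_zero,
      Real.sin_zero] at a1 a2
    have : w 3 * D 0 = 0 := by linarith
    exact (mul_eq_zero.1 this).resolve_right D0
  have w8 : w 8 = 0 := by
    have a1 := H1 0 0
    have a2 := H1 (Real.pi / 2) 0
    simp only [w0, w1, w2, w3, w4, w5, w6, w7, zero_mul, s2, Real.sin_zero] at a1 a2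
    have : w 8 * √5 = 0 := by linarith
    exact (mul_eq_zero.1 this).resolve_right h5
  ext i
  fin_cases i <;> simp [w0, w1, w2, w3, w4, w5, w6, w7, w8]

lemma injective_X (p : Plane) : Function.Injective (fderiv ℝ X p) := by
  rw [injective_iff_map_eq_zero]
  intro v hv
  have hW := W_pos p.1
  have hD := D_pos p.1
  have hdec : fderiv ℝ X p v = v.1 • du X p + v.2 • dv X p := by
    unfold du dv
    rw [← map_smul, ← map_smul, ← map_add]
    congr 1
    ext <;> simp
  have hu : inner ℝ (du X p) (fderiv ℝ X p v) = 0 := by rw [hv]; simp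
  have hvv : inner ℝ (dv X p) (fderiv ℝ X p v) = 0 := by rw [hv]; simp
  have e1 : inner ℝ (du X p) (du X p) = W p.1 * (D p.1)⁻¹ ^ 2 := gE_X p
  have e2 : inner ℝ (du X p) (dv X p) = 0 := gF_X p
  have e3 : inner ℝ (dv X p) (dv X p) = W p.1 := gG_X p
  have e4 : inner ℝ (dv X p) (du X p) = 0 := by rw [real_inner_comm]; exact e2
  rw [hdec, inner_add_right, inner_smul_right, inner_smul_right, e1, e2] at hu
  rw [hdec, inner_add_right, inner_smul_right, inner_smul_right, e4, e3] at hvv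
  have h1 : v.1 = 0 := by
    have : W p.1 * (D p.1)⁻¹ ^ 2 ≠ 0 := by positivity
    have h : v.1 * (W p.1 * (D p.1)⁻¹ ^ 2) = 0 := by linarith
    exact (mul_eq_zero.1 h).resolve_right this
  have h2 : v.2 = 0 := by
    have h : v.2 * W p.1 = 0 := by linarith
    exact (mul_eq_zero.1 h).resolve_right hW.ne'
  ext <;> simp [h1, h2]


lemma A_periodic (s : ℝ) : A (s + 2 * Real.pi) = A s := by
  have : D (s + 2 * Real.pi) = D s := by simp [D]
  simp only [A, this, Real.sin_add_two_pi, Real.cos_add_two_pi]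

lemma B_periodic (t : ℝ) : B (t + 2 * Real.pi) = B t := by
  have c4 : Real.cos (4 * (t + 2 * Real.pi)) = Real.cos (4 * t) := by
    rw [show 4 * (t + 2 * Real.pi) = 4 * t + (4 : ℕ) * (2 * Real.pi) by push_cast; ring]
    exact Real.cos_add_nat_mul_two_pi _ _
  have s4 : Real.sin (4 * (t + 2 * Real.pi)) = Real.sin (4 * t) := by
    rw [show 4 * (t + 2 * Real.pi) = 4 * t + (4 : ℕ) * (2 * Real.pi) by push_cast; ring]
    exact Real.sin_add_nat_mul_two_pi _ _
  have c7 : Real.cos (7 * (t + 2 * Real.pi)) = Real.cos (7 * t) := by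
    rw [show 7 * (t + 2 * Real.pi) = 7 * t + (7 : ℕ) * (2 * Real.pi) by push_cast; ring]
    exact Real.cos_add_nat_mul_two_pi _ _
  have s7 : Real.sin (7 * (t + 2 * Real.pi)) = Real.sin (7 * t) := by
    rw [show 7 * (t + 2 * Real.pi) = 7 * t + (7 : ℕ) * (2 * Real.pi) by push_cast; ring]
    exact Real.sin_add_nat_mul_two_pi _ _
  have c2 : Real.cos (2 * (t + 2 * Real.pi)) = Real.cos (2 * t) := by
    rw [show 2 * (t + 2 * Real.pi) = 2 * t + (2 : ℕ) * (2 * Real.pi) by push_cast; ring]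
    exact Real.cos_add_nat_mul_two_pi _ _
  have s2 : Real.sin (2 * (t + 2 * Real.pi)) = Real.sin (2 * t) := by
    rw [show 2 * (t + 2 * Real.pi) = 2 * t + (2 : ℕ) * (2 * Real.pi) by push_cast; ring]
    exact Real.sin_add_nat_mul_two_pi _ _
  simp only [B, c4, s4, c7, s7, c2, s2, Real.sin_add_two_pi, Real.cos_add_two_pi]

/-- **There is a mass-symmetric 2-type surface (in fact a torus) lying fully in the
even-dimensional sphere `S⁸ ⊂ 𝔼⁹`.** -/
theorem result : ∃ (x : Plane → E 9) (c : E 9) (r : ℝ),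
    IsImmersion x ∧ LiesFullyIn x c r ∧ IsTwoType x c ∧
    (∀ p : Plane, x (p + (2 * Real.pi, 0)) = x p) ∧
    (∀ p : Plane, x (p + (0, 2 * Real.pi)) = x p) := by
  refine ⟨X, 0, √20, ⟨contDiff_X, injective_X⟩, ⟨by positivity, mem_sphere_X, full_X⟩,
    ⟨Y₁, Y₂, 1/15, 1/5, by norm_num, Y₁_eigen, Y₂_eigen, fun p => ?_⟩, fun p => ?_, fun p => ?_⟩
  · ext i
    by_cases h : i.val < 4 <;> simp [X, Y₁, Y₂, h]
  · simp only [X, Prod.fst_add, Prod.snd_add, add_zero, A_periodic]
  · simp only [X, Prod.fst_add, Prod.snd_add, add_zero, B_periodic]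

end Pool.Agent.Results.MP_1643f9_gt.EvenSphereTorus
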